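import Mathlib

set_option autoImplicit false
set_option maxHeartbeats 4000000

namespace Pool.Agent.KDep

open MeasureTheory Filter Topology

/-- the event that all coordinates in `S` are `true` -/
def ES {ι : Type} (S : Finset ι) : Set (ι → Bool) := {x | ∀ i ∈ S, x i = true}

lemma measurable_ES {ι : Type} (S : Finset ι) : MeasurableSet (ES S) := by
  have : ES S = ⋂ i ∈ S, (fun x : ι → Bool => x i) ⁻¹' {true} := by
    ext x; simp [ES]
  rw [this]
  exact S.measurableSet_biInter (fun i _ => measurable_pi_apply i (measurableSet_singleton _))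

lemma ES_empty {ι : Type} : ES (∅ : Finset ι) = Set.univ := by
  ext x; simp [ES]

lemma ES_inter {ι : Type} [DecidableEq ι] (S T : Finset ι) : ES S ∩ ES T = ES (S ∪ T) := by
  ext x
  simp only [ES, Set.mem_inter_iff, Set.mem_ofPred_eq, Finset.mem_union]
  constructor
  · rintro ⟨h1, h2⟩ i (hi | hi)
    · exact h1 i hi
    · exact h2 i hi
  · intro h
    exact ⟨fun i hi => h i (Or.inl hi), fun i hi => h i (Or.inr hi)⟩

lemma piSystem_ES {ι : Type} : IsPiSystem (Set.range (ES (ι := ι))) := by
  classical
  rintro _ ⟨S, rfl⟩ _ ⟨T, rfl⟩ _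
  exact ⟨S ∪ T, (ES_inter S T).symm⟩

lemma generate_ES {ι : Type} :
    (MeasurableSpace.pi : MeasurableSpace (ι → Bool)) = MeasurableSpace.generateFrom (Set.range ES) := by
  apply le_antisymm
  · refine iSup_le (fun i => ?_)
    rw [← measurable_iff_comap_le]
    refine @measurable_to_bool _ (MeasurableSpace.generateFrom (Set.range ES)) _ ?_
    have : (fun x : ι → Bool => x i) ⁻¹' {true} = ES {i} := by
      ext x; simp [ES]
    rw [this]
    exact MeasurableSpace.measurableSet_generateFrom ⟨_, rfl⟩
  · apply MeasurableSpace.generateFrom_le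
    rintro _ ⟨S, rfl⟩
    exact measurable_ES S

lemma ext_ES {ι : Type} (μ ν : Measure (ι → Bool)) [IsFiniteMeasure μ]
    (h : ∀ S : Finset ι, μ (ES S) = ν (ES S)) : μ = ν := by
  refine ext_of_generate_finite (Set.range ES) generate_ES piSystem_ES ?_ ?_
  · rintro _ ⟨S, rfl⟩
    exact h S
  · have := h ∅
    rwa [ES_empty] at this

lemma restrict_preimage {ι : Type} (I : Finset ι) (S : Finset I) :
    (Finset.restrict (π := fun _ => Bool) I) ⁻¹' (ES S) = ES (S.map (Function.Embedding.subtype _)) := by
  ext x
  simp only [ES, Set.mem_preimage, Set.mem_ofPred_eq, Finset.restrict, Finset.mem_map,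
    Function.Embedding.coe_subtype]
  constructor
  · rintro h _ ⟨j, hj, rfl⟩
    exact h j hj
  · intro h j hj
    exact h j.1 ⟨j, hj, rfl⟩

/-- Kolmogorov's extension theorem for `Bool`-valued processes, in terms of correlations. -/
lemma exists_measure {ι : Type} [DecidableEq ι] (W : Finset ι → Measure (ι → Bool))
    (hW : ∀ I, IsProbabilityMeasure (W I)) (m : Finset ι → ENNReal)
    (hm : ∀ I S, S ⊆ I → W I (ES S) = m S) :
    ∃ μ : Measure (ι → Bool), IsProbabilityMeasure μ ∧ ∀ S, μ (ES S) = m S := by
  classical
  let P : ∀ J : Finset ι, Measure (∀ _ : J, Bool) := fun J => (W J).map (Finset.restrict (π := fun _ => Bool) J)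
  have hPval : ∀ (J : Finset ι) (S : Finset J), P J (ES S) = m (S.map (Function.Embedding.subtype _)) := by
    intro J S
    show (W J).map (Finset.restrict (π := fun _ => Bool) J) (ES S) = _
    rw [Measure.map_apply (Finset.measurable_restrict J) (measurable_ES S), restrict_preimage, hm]
    intro i hi
    rw [Finset.mem_map] at hi
    obtain ⟨j, _, rfl⟩ := hi
    exact j.2
  have hPp : ∀ J, IsProbabilityMeasure (P J) := fun J =>
    Measure.isProbabilityMeasure_map (Finset.measurable_restrict J).aemeasurable
  have hP : IsProjectiveMeasureFamily (α := fun _ : ι => Bool) P := by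
    intro I J hJI
    refine ext_ES (P J) _ (fun S => ?_)
    rw [hPval]
    have hmeas : Measurable (Finset.restrict₂ (π := fun _ => Bool) hJI) := Finset.measurable_restrict₂ hJI
    rw [Measure.map_apply hmeas (measurable_ES S)]
    have e : (Finset.restrict₂ (π := fun _ => Bool) hJI) ⁻¹' (ES S)
        = ES (S.map ⟨fun j => (⟨j.1, hJI j.2⟩ : I), fun a b hab => by
            rw [Subtype.mk.injEq] at hab; exact Subtype.ext hab⟩) := by
      ext x
      simp only [ES, Set.mem_preimage, Set.mem_ofPred_eq, Finset.restrict₂, Finset.mem_map,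
        Function.Embedding.coeFn_mk]
      constructor
      · rintro h _ ⟨j, hj, rfl⟩
        exact h j hj
      · intro h j hj
        exact h _ ⟨j, hj, rfl⟩
    rw [e, hPval]
    congr 1
    ext i
    simp only [Finset.mem_map, Function.Embedding.coe_subtype, Function.Embedding.coeFn_mk]
    constructor
    · rintro ⟨j, hj, rfl⟩
      exact ⟨_, ⟨j, hj, rfl⟩, rfl⟩
    · rintro ⟨_, ⟨j, hj, rfl⟩, rfl⟩
      exact ⟨j, hj, rfl⟩
  have htop : ∀ s ∈ measurableCylinders (fun _ : ι => Bool), projectiveFamilyContent hP s ≠ ⊤ :=
    fun s _ => projectiveFamilyContent_ne_top hP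
  have htend : ∀ ⦃s : ℕ → Set (ι → Bool)⦄ (_ : ∀ n, s n ∈ measurableCylinders (fun _ : ι => Bool)),
      Antitone s → (⋂ n, s n) = ∅ → Tendsto (fun n ↦ projectiveFamilyContent hP (s n)) atTop (𝓝 0) := by
    intro s hs hanti hempty
    -- all cylinders are closed
    have hclosed : ∀ n, IsClosed (s n) := by
      intro n
      obtain ⟨I, T, _, e⟩ := (mem_measurableCylinders _).1 (hs n)
      rw [e]
      refine IsClosed.cylinder I ?_
      exact (Set.toFinite T).isClosed
    obtain ⟨n, hn⟩ : ∃ n, s n = ∅ := by
      by_contra hne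
      push Not at hne
      have := IsCompact.nonempty_iInter_of_sequence_nonempty_isCompact_isClosed s
        (fun n => hanti (Nat.le_succ n)) (fun n => hne n)
        (hclosed 0).isCompact hclosed
      rw [hempty] at this
      exact Set.not_nonempty_empty this
    refine tendsto_const_nhds.congr' ?_
    filter_upwards [eventually_ge_atTop n] with k hk
    have : s k = ∅ := Set.subset_empty_iff.mp (by rw [← hn]; exact hanti hk)
    rw [this]
    exact addContent_empty.symm
  have hsub : (projectiveFamilyContent hP).IsSigmaSubadditive := by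
    refine isSigmaSubadditive_of_addContent_iUnion_eq_tsum
      isSetRing_measurableCylinders (fun f hf hf_Union hf' ↦ ?_)
    exact addContent_iUnion_eq_sum_of_tendsto_zero isSetRing_measurableCylinders
      _ htop htend hf hf_Union hf'
  let μ : Measure (ι → Bool) := (projectiveFamilyContent hP).measure isSetSemiring_measurableCylinders
      generateFrom_measurableCylinders.ge hsub
  have hμ : ∀ S : Finset ι, μ (ES S) = m S := by
    intro S
    have e : ES S = cylinder S (ES (Finset.univ : Finset S)) := by
      ext x
      simp [ES, cylinder, Finset.restrict]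
    show ((projectiveFamilyContent hP).measure isSetSemiring_measurableCylinders
      generateFrom_measurableCylinders.ge hsub) (ES S) = m S
    rw [AddContent.measure_eq _ _ generateFrom_measurableCylinders.symm]
    · rw [e, projectiveFamilyContent_cylinder hP (measurable_ES _), hPval]
      congr 1
      ext i
      simp
    · rw [e]
      exact cylinder_mem_measurableCylinders _ _ (measurable_ES _)
  refine ⟨μ, ⟨?_⟩, hμ⟩
  rw [← ES_empty, hμ ∅, ← hm ∅ ∅ (Finset.Subset.refl _), ES_empty]
  haveI := hW ∅
  exact measure_univ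

end Pool.Agent.KDep
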