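import Mathlib

set_option autoImplicit false
set_option maxHeartbeats 4000000

namespace Pool.Agent.KDep

/-- positivity of the solutions of a cubic recurrence with dominating root `1` -/
lemma pos_of (X : ℕ → ℝ) (hX : ∀ m, X (m + 3) = 2 * X (m + 2) - (9 / 5) * X (m + 1) + (4 / 5) * X m)
    (H : ℝ) (hH : H = X 2 - X 1 + (4 / 5) * X 0) (hH0 : 0 ≤ H)
    (hE : (X 1 - 5 / 4 * H) ^ 2 - (X 1 - 5 / 4 * H) * (X 0 - 5 / 4 * H) + (4 / 5) * (X 0 - 5 / 4 * H) ^ 2
      ≤ (11 / 20) * (5 / 4 * H) ^ 2) : ∀ m, 0 ≤ X m := by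
  have h1 : ∀ m, X (m + 2) - X (m + 1) + (4 / 5) * X m = H := by
    intro m
    induction m with
    | zero => rw [hH]
    | succ m ih =>
      have := hX m
      have e1 : m + 1 + 2 = m + 3 := by ring
      have e2 : m + 1 + 1 = m + 2 := by ring
      rw [e1, e2, this]
      linarith
  have h2 : ∀ m, (X (m + 1) - 5 / 4 * H) ^ 2 - (X (m + 1) - 5 / 4 * H) * (X m - 5 / 4 * H)
      + (4 / 5) * (X m - 5 / 4 * H) ^ 2 ≤ (11 / 20) * (5 / 4 * H) ^ 2 := by
    intro m
    induction m with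
    | zero => exact hE
    | succ m ih =>
      have h3 := h1 m
      have e2 : m + 1 + 1 = m + 2 := by ring
      rw [e2]
      have h4 : X (m + 2) = X (m + 1) - (4 / 5) * X m + H := by linarith
      rw [h4]
      set a := X (m + 1) - 5 / 4 * H with ha
      set b := X m - 5 / 4 * H with hb
      have ea : X (m + 1) = a + 5 / 4 * H := by rw [ha]; ring
      have eb : X m = b + 5 / 4 * H := by rw [hb]; ring
      rw [ea, eb]
      have key : (a + 5 / 4 * H - 4 / 5 * (b + 5 / 4 * H) + H - 5 / 4 * H) ^ 2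
          - (a + 5 / 4 * H - 4 / 5 * (b + 5 / 4 * H) + H - 5 / 4 * H) * a + 4 / 5 * a ^ 2
          = (4 / 5) * (a ^ 2 - a * b + 4 / 5 * b ^ 2) := by ring
      have hpos : 0 ≤ a ^ 2 - a * b + 4 / 5 * b ^ 2 := by nlinarith [sq_nonneg (a - b / 2)]
      nlinarith
  intro m
  have h3 := h2 m
  have h4 : (11 / 20) * (X m - 5 / 4 * H) ^ 2 ≤ (11 / 20) * (5 / 4 * H) ^ 2 := by
    nlinarith [sq_nonneg ((X (m + 1) - 5 / 4 * H) - (X m - 5 / 4 * H) / 2)]
  have h5 : (X m - 5 / 4 * H) ^ 2 ≤ (5 / 4 * H) ^ 2 := by linarith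
  have h6 := abs_le_of_sq_le_sq h5 (by linarith)
  linarith [(abs_le.mp h6).1]

/-- transition of the state when a `0` is read -/
noncomputable def M0 (v : ℝ × ℝ × ℝ) : ℝ × ℝ × ℝ :=
  (v.1 + v.2.2, -(7 / 20) * v.1 - (9 / 20) * v.2.2, v.2.1)

/-- probability weight of the state -/
noncomputable def phi (v : ℝ × ℝ × ℝ) : ℝ := v.1 + v.2.1 + v.2.2

/-- weight of reading a `1` next -/
noncomputable def hh (v : ℝ × ℝ × ℝ) : ℝ := (7 / 20) * v.1 + (9 / 20) * v.2.2

/-- transition of the state when a `1` is read -/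
noncomputable def M1 (v : ℝ × ℝ × ℝ) : ℝ × ℝ × ℝ := (0, hh v, 0)

lemma phi_rec (v : ℝ × ℝ × ℝ) :
    phi (M0 (M0 (M0 v))) = phi (M0 (M0 v)) - (9 / 20) * phi (M0 v) + (1 / 10) * phi v := by
  simp only [phi, M0]; ring

lemma hh_rec (v : ℝ × ℝ × ℝ) :
    hh (M0 (M0 (M0 v))) = hh (M0 (M0 v)) - (9 / 20) * hh (M0 v) + (1 / 10) * hh v := by
  simp only [hh, M0]; ring

lemma iter_pos (ψ : ℝ × ℝ × ℝ → ℝ)
    (hψ : ∀ v, ψ (M0 (M0 (M0 v))) = ψ (M0 (M0 v)) - (9 / 20) * ψ (M0 v) + (1 / 10) * ψ v)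
    (v : ℝ × ℝ × ℝ) (H : ℝ) (hH : H = 4 * ψ (M0 (M0 v)) - 2 * ψ (M0 v) + (4 / 5) * ψ v) (hH0 : 0 ≤ H)
    (hE : (2 * ψ (M0 v) - 5 / 4 * H) ^ 2 - (2 * ψ (M0 v) - 5 / 4 * H) * (ψ v - 5 / 4 * H)
      + (4 / 5) * (ψ v - 5 / 4 * H) ^ 2 ≤ (11 / 20) * (5 / 4 * H) ^ 2) (m : ℕ) :
    0 ≤ ψ (M0^[m] v) := by
  have h := pos_of (fun m => 2 ^ m * ψ (M0^[m] v)) ?_ H ?_ hH0 ?_ m
  · have h2 : (0 : ℝ) < 2 ^ m := by positivity
    exact nonneg_of_mul_nonneg_right h h2
  · intro m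
    simp only [Function.iterate_succ_apply', hψ]
    ring
  · simp only [Function.iterate_succ_apply', Function.iterate_zero, id_eq, pow_zero, one_mul, pow_one]
    rw [hH]; norm_num
  · simp only [Function.iterate_succ_apply', Function.iterate_zero, id_eq, pow_zero, one_mul, pow_one]
    exact hE

/-- a state from which all words have nonnegative weight as long as only zeros are read -/
def Good (v : ℝ × ℝ × ℝ) : Prop := ∀ m, 0 ≤ phi (M0^[m] v) ∧ 0 ≤ hh (M0^[m] v)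

lemma good_e1 : Good (1, 0, 0) := by
  intro m
  constructor
  · refine iter_pos phi phi_rec _ (7 / 10) ?_ (by norm_num) ?_ m
    · simp only [phi, M0]; norm_num
    · simp only [phi, M0]; norm_num
  · refine iter_pos hh hh_rec _ (7 / 20) ?_ (by norm_num) ?_ m
    · simp only [hh, M0]; norm_num
    · simp only [hh, M0]; norm_num

lemma good_e2 : Good (0, 1, 0) := by
  intro m
  constructor
  · refine iter_pos phi phi_rec _ 1 ?_ (by norm_num) ?_ m
    · simp only [phi, M0]; norm_num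
    · simp only [phi, M0]; norm_num
  · rcases lt_or_ge m 5 with h | h
    · interval_cases m <;> simp only [Function.iterate_succ_apply', Function.iterate_zero, id_eq, hh, M0] <;> norm_num
    · obtain ⟨j, rfl⟩ : ∃ j, m = j + 5 := ⟨m - 5, by omega⟩
      rw [Function.iterate_add_apply]
      refine iter_pos hh hh_rec _ (1 / 64) ?_ (by norm_num) ?_ j
      · simp only [Function.iterate_succ_apply', Function.iterate_zero, id_eq, hh, M0]; norm_num
      · simp only [Function.iterate_succ_apply', Function.iterate_zero, id_eq, hh, M0]; norm_num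

lemma good_M0 {v : ℝ × ℝ × ℝ} (h : Good v) : Good (M0 v) := by
  intro m
  have := h (m + 1)
  rwa [Function.iterate_succ_apply] at this

lemma M0_smul (c : ℝ) (v : ℝ × ℝ × ℝ) : M0 (c • v) = c • M0 v := by
  simp only [M0, Prod.smul_fst, Prod.smul_snd, smul_eq_mul, Prod.smul_mk]
  refine Prod.ext ?_ (Prod.ext ?_ ?_) <;> simp only <;> ring

lemma M0_iter_smul (c : ℝ) (v : ℝ × ℝ × ℝ) (m : ℕ) : M0^[m] (c • v) = c • M0^[m] v := by
  induction m with
  | zero => rfl
  | succ m ih => rw [Function.iterate_succ_apply', ih, M0_smul, Function.iterate_succ_apply']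

lemma good_smul {c : ℝ} (hc : 0 ≤ c) {v : ℝ × ℝ × ℝ} (h : Good v) : Good (c • v) := by
  intro m
  rw [M0_iter_smul]
  obtain ⟨h1, h2⟩ := h m
  constructor
  · have : phi (c • M0^[m] v) = c * phi (M0^[m] v) := by simp [phi]; ring
    rw [this]; positivity
  · have : hh (c • M0^[m] v) = c * hh (M0^[m] v) := by simp [hh]; ring
    rw [this]; positivity

lemma good_M1 {v : ℝ × ℝ × ℝ} (h : Good v) : Good (M1 v) := by
  have e : M1 v = hh v • ((0 : ℝ), (1 : ℝ), (0 : ℝ)) := by simp [M1]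
  rw [e]
  exact good_smul (h 0).2 good_e2

end Pool.Agent.KDep
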