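import Mathlib
import Pool.Agent.KDep.Pos

set_option autoImplicit false
set_option maxHeartbeats 4000000

namespace Pool.Agent.KDep

open MeasureTheory

/-- state after reading the positions `a, ..., a+n-1` of the configuration `T` -/
noncomputable def st (a : ℤ) (T : Finset ℤ) : ℕ → ℝ × ℝ × ℝ
  | 0 => (1, 0, 0)
  | n + 1 => if a + n ∈ T then M1 (st a T n) else M0 (st a T n)

lemma st_good (a : ℤ) (T : Finset ℤ) (n : ℕ) : Good (st a T n) := by
  induction n with
  | zero => exact good_e1
  | succ n ih =>
    simp only [st]
    split_ifs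
    · exact good_M1 ih
    · exact good_M0 ih

lemma phi_st_nonneg (a : ℤ) (T : Finset ℤ) (n : ℕ) : 0 ≤ phi (st a T n) := (st_good a T n 0).1

lemma st_congr (a : ℤ) (T T' : Finset ℤ) (n : ℕ) (h : ∀ j : ℕ, j < n → (a + j ∈ T ↔ a + j ∈ T')) :
    st a T n = st a T' n := by
  induction n with
  | zero => rfl
  | succ n ih =>
    simp only [st]
    rw [ih (fun j hj => h j (by omega))]
    simp only [h n (by omega)]

/-- the window -/
noncomputable def win (a : ℤ) (n : ℕ) : Finset ℤ := Finset.Ico a (a + n)

lemma win_succ (a : ℤ) (n : ℕ) : win a (n + 1) = insert (a + n) (win a n) := by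
  ext j
  simp only [win, Finset.mem_Ico, Finset.mem_insert]
  push_cast
  omega

lemma not_mem_win (a : ℤ) (n : ℕ) : (a + n) ∉ win a n := by
  simp [win]

/-- weights of the elements of a finite set -/
noncomputable def wt (S : Finset ℤ) (i : ℤ) : ℝ :=
  if i - 1 ∈ S then 0 else if i - 2 ∈ S then 9 / 20 else 7 / 20

/-- correlation function -/
noncomputable def rho (S : Finset ℤ) : ℝ := ∏ i ∈ S, wt S i

/-- sum of the states of the configurations in the window that contain `S` -/
noncomputable def sg (a : ℤ) (S : Finset ℤ) (n : ℕ) : ℝ × ℝ × ℝ :=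
  ∑ T ∈ (win a n).powerset, if S ∩ win a n ⊆ T then st a T n else 0

lemma M0_add (v w : ℝ × ℝ × ℝ) : M0 (v + w) = M0 v + M0 w := by
  refine Prod.ext ?_ (Prod.ext ?_ ?_) <;> simp [M0] <;> ring

lemma M1_add (v w : ℝ × ℝ × ℝ) : M1 (v + w) = M1 v + M1 w := by
  refine Prod.ext ?_ (Prod.ext ?_ ?_) <;> simp [M1, hh] <;> ring

lemma M0_zero : M0 0 = 0 := by simp [M0]
lemma M1_zero : M1 0 = 0 := by simp [M1, hh]

lemma M0_sum {ι : Type} (s : Finset ι) (f : ι → ℝ × ℝ × ℝ) : M0 (∑ i ∈ s, f i) = ∑ i ∈ s, M0 (f i) := by
  classical
  induction s using Finset.induction_on with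
  | empty => simp [M0_zero]
  | insert i s hi ih => rw [Finset.sum_insert hi, Finset.sum_insert hi, M0_add, ih]

lemma M1_sum {ι : Type} (s : Finset ι) (f : ι → ℝ × ℝ × ℝ) : M1 (∑ i ∈ s, f i) = ∑ i ∈ s, M1 (f i) := by
  classical
  induction s using Finset.induction_on with
  | empty => simp [M1_zero]
  | insert i s hi ih => rw [Finset.sum_insert hi, Finset.sum_insert hi, M1_add, ih]

lemma sg_succ (a : ℤ) (S : Finset ℤ) (n : ℕ) :
    sg a S (n + 1) = if a + n ∈ S then M1 (sg a S n) else M0 (sg a S n) + M1 (sg a S n) := by
  unfold sg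
  rw [win_succ, Finset.sum_powerset_insert (not_mem_win a n)]
  have hst0 : ∀ T ∈ (win a n).powerset, st a T (n + 1) = M0 (st a T n) := by
    intro T hT
    have : a + n ∉ T := fun h => not_mem_win a n (Finset.mem_powerset.mp hT h)
    simp only [st, if_neg this]
  have hst1 : ∀ T ∈ (win a n).powerset, st a (insert (a + n) T) (n + 1) = M1 (st a T n) := by
    intro T hT
    simp only [st, if_pos (Finset.mem_insert_self _ _)]
    congr 1
    refine st_congr a _ _ n (fun j hj => ?_)
    rw [Finset.mem_insert]
    constructor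
    · rintro (h | h)
      · omega
      · exact h
    · intro h; exact Or.inr h
  by_cases hS : a + n ∈ S
  · rw [if_pos hS, M1_sum]
    have z : ∑ T ∈ (win a n).powerset, (if S ∩ insert (a + n) (win a n) ⊆ T then st a T (n + 1) else 0) = 0 := by
      refine Finset.sum_eq_zero (fun T hT => ?_)
      rw [if_neg]
      intro h
      exact not_mem_win a n (Finset.mem_powerset.mp hT (h (Finset.mem_inter.mpr ⟨hS, Finset.mem_insert_self _ _⟩)))
    rw [z, zero_add]
    refine Finset.sum_congr rfl (fun T hT => ?_)
    rw [hst1 T hT]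
    have e : (S ∩ insert (a + n) (win a n) ⊆ insert (a + n) T) ↔ (S ∩ win a n ⊆ T) := by
      constructor
      · intro h j hj
        rw [Finset.mem_inter] at hj
        have := h (Finset.mem_inter.mpr ⟨hj.1, Finset.mem_insert_of_mem hj.2⟩)
        rw [Finset.mem_insert] at this
        rcases this with h1 | h1
        · rw [h1] at hj; exact absurd hj.2 (not_mem_win a n)
        · exact h1
      · intro h j hj
        rw [Finset.mem_inter, Finset.mem_insert] at hj
        rw [Finset.mem_insert]
        rcases hj.2 with h1 | h1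
        · exact Or.inl h1
        · exact Or.inr (h (Finset.mem_inter.mpr ⟨hj.1, h1⟩))
    simp only [e]
    split_ifs
    · rfl
    · exact M1_zero.symm
  · rw [if_neg hS, M0_sum, M1_sum]
    have e0 : S ∩ insert (a + n) (win a n) = S ∩ win a n := by
      ext j
      simp only [Finset.mem_inter, Finset.mem_insert]
      constructor
      · rintro ⟨h1, h2 | h2⟩
        · rw [h2] at h1; exact absurd h1 hS
        · exact ⟨h1, h2⟩
      · rintro ⟨h1, h2⟩; exact ⟨h1, Or.inr h2⟩
    rw [e0]
    congr 1
    · refine Finset.sum_congr rfl (fun T hT => ?_)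
      rw [hst0 T hT]
      split_ifs
      · rfl
      · exact M0_zero.symm
    · refine Finset.sum_congr rfl (fun T hT => ?_)
      rw [hst1 T hT]
      have e : (S ∩ win a n ⊆ insert (a + n) T) ↔ (S ∩ win a n ⊆ T) := by
        constructor
        · intro h j hj
          have := h hj
          rw [Finset.mem_insert] at this
          rcases this with h1 | h1
          · rw [h1] at hj; exact absurd (Finset.mem_inter.mp hj).2 (not_mem_win a n)
          · exact h1
        · intro h j hj
          exact Finset.mem_insert_of_mem (h hj)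
      simp only [e]
      split_ifs
      · rfl
      · exact M1_zero.symm

/-- closed form of the state sums -/
lemma sg_eq (a : ℤ) (S : Finset ℤ) (n : ℕ) :
    sg a S n = rho (S ∩ win a n) •
      (if a + n - 1 ∈ S ∩ win a n then ((0 : ℝ), (1 : ℝ), (0 : ℝ))
        else if a + n - 2 ∈ S ∩ win a n then ((0 : ℝ), (0 : ℝ), (1 : ℝ)) else ((1 : ℝ), (0 : ℝ), (0 : ℝ))) := by
  induction n with
  | zero =>
    simp [sg, win, rho, st]
  | succ n ih =>
    rw [sg_succ, ih]
    obtain ⟨S', hS'⟩ : ∃ S', S' = S ∩ win a n := ⟨_, rfl⟩
    have hmem : ∀ j, j ∈ S' → a ≤ j ∧ j < a + n := by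
      intro j hj
      rw [hS', Finset.mem_inter, win, Finset.mem_Ico] at hj
      exact hj.2
    by_cases hS : a + n ∈ S
    · have e : S ∩ win a (n + 1) = insert (a + n) S' := by
        rw [hS', win_succ]
        ext j
        simp only [Finset.mem_inter, Finset.mem_insert]
        constructor
        · rintro ⟨h1, h2 | h2⟩
          · exact Or.inl h2
          · exact Or.inr ⟨h1, h2⟩
        · rintro (h | ⟨h1, h2⟩)
          · rw [h]; exact ⟨hS, Or.inl rfl⟩
          · exact ⟨h1, Or.inr h2⟩
      rw [if_pos hS, e, ← hS']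
      have hn : a + n ∉ S' := fun h => by have := hmem _ h; omega
      have c1 : a + ((n + 1 : ℕ) : ℤ) - 1 = a + n := by push_cast; ring
      rw [c1, if_pos (Finset.mem_insert_self _ _)]
      have hr : rho (insert (a + n) S') = wt S' (a + n) * rho S' := by
        unfold rho
        rw [Finset.prod_insert hn]
        congr 1
        · unfold wt
          have e1 : (a + n - 1 ∈ insert (a + n) S') ↔ (a + n - 1 ∈ S') := by
            rw [Finset.mem_insert]; constructor
            · rintro (h | h)
              · omega
              · exact h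
            · exact Or.inr
          have e2 : (a + n - 2 ∈ insert (a + n) S') ↔ (a + n - 2 ∈ S') := by
            rw [Finset.mem_insert]; constructor
            · rintro (h | h)
              · omega
              · exact h
            · exact Or.inr
          simp only [e1, e2]
        · refine Finset.prod_congr rfl (fun j hj => ?_)
          have := hmem j hj
          unfold wt
          have e1 : (j - 1 ∈ insert (a + n) S') ↔ (j - 1 ∈ S') := by
            rw [Finset.mem_insert]; constructor
            · rintro (h | h)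
              · omega
              · exact h
            · exact Or.inr
          have e2 : (j - 2 ∈ insert (a + n) S') ↔ (j - 2 ∈ S') := by
            rw [Finset.mem_insert]; constructor
            · rintro (h | h)
              · omega
              · exact h
            · exact Or.inr
          simp only [e1, e2]
      rw [hr]
      unfold wt
      by_cases h1 : a + n - 1 ∈ S'
      · simp [h1, M1, hh]
      · by_cases h2 : a + n - 2 ∈ S'
        · simp [h1, h2, M1, hh]
        · simp [h1, h2, M1, hh]
    · have e : S ∩ win a (n + 1) = S' := by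
        rw [hS', win_succ]
        ext j
        simp only [Finset.mem_inter, Finset.mem_insert]
        constructor
        · rintro ⟨h1, h2 | h2⟩
          · rw [h2] at h1; exact absurd h1 hS
          · exact ⟨h1, h2⟩
        · rintro ⟨h1, h2⟩
          exact ⟨h1, Or.inr h2⟩
      rw [if_neg hS, e, ← hS']
      have c1 : a + ((n + 1 : ℕ) : ℤ) - 1 = a + n := by push_cast; ring
      have c2 : a + ((n + 1 : ℕ) : ℤ) - 2 = a + n - 1 := by push_cast; ring
      have hn : a + n ∉ S' := fun h => by have := hmem _ h; omega
      rw [c1, c2, if_neg hn]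
      by_cases h1 : a + n - 1 ∈ S'
      · simp [h1, M1, M0, hh]
      · by_cases h2 : a + n - 2 ∈ S'
        · simp [h1, h2, M1, M0, hh]
        · simp [h1, h2, M1, M0, hh]

lemma phi_sum {ι : Type} (s : Finset ι) (f : ι → ℝ × ℝ × ℝ) : phi (∑ i ∈ s, f i) = ∑ i ∈ s, phi (f i) := by
  classical
  induction s using Finset.induction_on with
  | empty => simp [phi]
  | insert i s hi ih =>
    rw [Finset.sum_insert hi, Finset.sum_insert hi, ← ih]
    simp only [phi, Prod.fst_add, Prod.snd_add]
    ring

lemma sum_phi (a : ℤ) (S : Finset ℤ) (n : ℕ) (hS : S ⊆ win a n) :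
    ∑ T ∈ (win a n).powerset, (if S ⊆ T then phi (st a T n) else 0) = rho S := by
  have h := congrArg phi (sg_eq a S n)
  have e : S ∩ win a n = S := Finset.inter_eq_left.mpr hS
  rw [e] at h
  unfold sg at h
  rw [phi_sum, e] at h
  have h2 : phi (rho S • (if a + n - 1 ∈ S then ((0 : ℝ), (1 : ℝ), (0 : ℝ))
        else if a + n - 2 ∈ S then ((0 : ℝ), (0 : ℝ), (1 : ℝ)) else ((1 : ℝ), (0 : ℝ), (0 : ℝ)))) = rho S := by
    split_ifs <;> simp [phi]
  rw [h2] at h
  rw [← h]
  refine Finset.sum_congr rfl (fun T _ => ?_)
  split_ifs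
  · rfl
  · simp [phi]

end Pool.Agent.KDep
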