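import Mathlib
import Pool.Agent.KDep.Win
import Pool.Agent.KDep.Ext

set_option autoImplicit false
set_option maxHeartbeats 4000000

namespace Pool.Agent.KDep

open MeasureTheory ProbabilityTheory

/-- `μ` is the law of a stationary `k`-dependent hard-core process on `ℤ` (`true` is occupied). -/
structure IsHardCoreProcess (k : ℕ) (μ : Measure (ℤ → Bool)) : Prop where
  prob : IsProbabilityMeasure μ
  stationary : μ.map (fun (x : ℤ → Bool) (i : ℤ) => x (i + 1)) = μ
  hardCore : ∀ᵐ x ∂μ, ∀ i : ℤ, ¬ (x i = true ∧ x (i + 1) = true)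
  dependent : ∀ A B : Set ℤ, (∀ a ∈ A, ∀ b ∈ B, (k : ℤ) < |a - b|) →
    IndepFun (fun (x : ℤ → Bool) (a : A) => x a) (fun (x : ℤ → Bool) (b : B) => x b) μ

/-- `p_k`: the supremum of `P(X_0 = 1)` over all stationary `k`-dependent hard-core processes. -/
noncomputable def maxDensity (k : ℕ) : ℝ :=
  sSup {p : ℝ | ∃ μ : Measure (ℤ → Bool), IsHardCoreProcess k μ ∧ p = μ.real {x | x 0 = true}}

/-- configuration with occupied set `T` -/
def cfg (T : Finset ℤ) : ℤ → Bool := fun i => decide (i ∈ T)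

lemma cfg_mem_ES (T S : Finset ℤ) : cfg T ∈ ES S ↔ S ⊆ T := by
  simp only [ES, cfg, Set.mem_ofPred_eq, decide_eq_true_eq]
  rfl

/-- law on the window -/
noncomputable def wm (a : ℤ) (n : ℕ) : Measure (ℤ → Bool) :=
  ∑ T ∈ (win a n).powerset, ENNReal.ofReal (phi (st a T n)) • Measure.dirac (cfg T)

lemma wm_ES (a : ℤ) (n : ℕ) (S : Finset ℤ) (hS : S ⊆ win a n) :
    wm a n (ES S) = ENNReal.ofReal (rho S) := by
  unfold wm
  rw [← sum_phi a S n hS, Measure.finsetSum_apply]
  rw [ENNReal.ofReal_sum_of_nonneg]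
  · refine Finset.sum_congr rfl (fun T _ => ?_)
    rw [Measure.smul_apply, Measure.dirac_apply' _ (measurable_ES S), smul_eq_mul]
    by_cases h : S ⊆ T
    · rw [if_pos h, Set.indicator_of_mem ((cfg_mem_ES T S).mpr h)]
      simp
    · rw [if_neg h, Set.indicator_of_notMem (fun h' => h ((cfg_mem_ES T S).mp h'))]
      simp
  · intro T _
    split_ifs
    · exact phi_st_nonneg _ _ _
    · exact le_rfl

lemma rho_empty : rho ∅ = 1 := by simp [rho]

lemma wm_prob (a : ℤ) (n : ℕ) : IsProbabilityMeasure (wm a n) := by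
  constructor
  rw [← ES_empty, wm_ES a n ∅ (Finset.empty_subset _), rho_empty, ENNReal.ofReal_one]

lemma exists_proc : ∃ μ : Measure (ℤ → Bool), IsProbabilityMeasure μ ∧
    ∀ S, μ (ES S) = ENNReal.ofReal (rho S) := by
  refine exists_measure (fun I => wm (-((I.sup Int.natAbs : ℕ) : ℤ)) (2 * I.sup Int.natAbs + 1))
    (fun I => wm_prob _ _) _ (fun I S hS => wm_ES _ _ _ ?_)
  intro i hi
  have h1 : i.natAbs ≤ I.sup Int.natAbs := Finset.le_sup (f := Int.natAbs) (hS hi)
  simp only [win, Finset.mem_Ico]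
  push_cast
  omega

lemma rho_nonneg (S : Finset ℤ) : 0 ≤ rho S := by
  refine Finset.prod_nonneg (fun i _ => ?_)
  unfold wt
  split_ifs <;> norm_num

lemma rho_shift (S : Finset ℤ) : rho (S.map (addRightEmbedding (1 : ℤ))) = rho S := by
  unfold rho
  rw [Finset.prod_map]
  refine Finset.prod_congr rfl (fun i _ => ?_)
  unfold wt
  have h : ∀ j, j ∈ S.map (addRightEmbedding (1 : ℤ)) ↔ j - 1 ∈ S := by
    intro j
    simp only [Finset.mem_map, addRightEmbedding_apply]
    constructor
    · rintro ⟨a, ha, rfl⟩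
      rwa [add_sub_cancel_right]
    · intro h
      exact ⟨j - 1, h, by ring⟩
  simp only [addRightEmbedding_apply, h]
  have e1 : i + 1 - 1 - 1 = i - 1 := by ring
  have e2 : i + 1 - 2 - 1 = i - 2 := by ring
  rw [e1, e2]

lemma rho_union (S T : Finset ℤ) (h : ∀ a ∈ S, ∀ b ∈ T, (2 : ℤ) < |a - b|) :
    rho (S ∪ T) = rho S * rho T := by
  have hd : Disjoint S T := by
    rw [Finset.disjoint_left]
    intro a ha hb
    have := h a ha a hb
    simp at this
  unfold rho
  rw [Finset.prod_union hd]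
  congr 1
  · refine Finset.prod_congr rfl (fun i hi => ?_)
    unfold wt
    have e1 : i - 1 ∈ S ∪ T ↔ i - 1 ∈ S := by
      rw [Finset.mem_union]
      constructor
      · rintro (h1 | h1)
        · exact h1
        · have := h i hi _ h1
          rw [sub_sub_cancel] at this
          norm_num at this
      · exact Or.inl
    have e2 : i - 2 ∈ S ∪ T ↔ i - 2 ∈ S := by
      rw [Finset.mem_union]
      constructor
      · rintro (h1 | h1)
        · exact h1
        · have := h i hi _ h1
          rw [sub_sub_cancel] at this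
          norm_num at this
      · exact Or.inl
    simp only [e1, e2]
  · refine Finset.prod_congr rfl (fun i hi => ?_)
    unfold wt
    have e1 : i - 1 ∈ S ∪ T ↔ i - 1 ∈ T := by
      rw [Finset.mem_union]
      constructor
      · rintro (h1 | h1)
        · have := h _ h1 i hi
          rw [sub_right_comm, sub_self, zero_sub, abs_neg] at this
          norm_num at this
        · exact h1
      · exact Or.inr
    have e2 : i - 2 ∈ S ∪ T ↔ i - 2 ∈ T := by
      rw [Finset.mem_union]
      constructor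
      · rintro (h1 | h1)
        · have := h _ h1 i hi
          rw [sub_right_comm, sub_self, zero_sub, abs_neg] at this
          norm_num at this
        · exact h1
      · exact Or.inr
    simp only [e1, e2]

lemma rho_pair (i : ℤ) : rho {i, i + 1} = 0 := by
  unfold rho
  refine Finset.prod_eq_zero (i := i + 1) (by simp) ?_
  unfold wt
  rw [if_pos (by simp)]

lemma rho_single (i : ℤ) : rho {i} = 7 / 20 := by
  unfold rho wt
  simp

lemma shift_preimage (S : Finset ℤ) :
    (fun (x : ℤ → Bool) (i : ℤ) => x (i + 1)) ⁻¹' (ES S) = ES (S.map (addRightEmbedding (1 : ℤ))) := by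
  ext x
  simp only [ES, Set.mem_preimage, Set.mem_ofPred_eq, Finset.mem_map, addRightEmbedding_apply]
  constructor
  · rintro h _ ⟨j, hj, rfl⟩
    exact h j hj
  · intro h j hj
    exact h _ ⟨j, hj, rfl⟩

lemma dom_preimage (A : Set ℤ) (S : Finset A) :
    (fun (x : ℤ → Bool) (a : A) => x a) ⁻¹' (ES S) = ES (S.map (Function.Embedding.subtype _)) := by
  ext x
  simp only [ES, Set.mem_preimage, Set.mem_ofPred_eq, Finset.mem_map, Function.Embedding.coe_subtype]
  constructor
  · rintro h _ ⟨j, hj, rfl⟩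
    exact h j hj
  · intro h j hj
    exact h _ ⟨j, hj, rfl⟩

theorem exists_hardcore : ∃ μ : Measure (ℤ → Bool), IsHardCoreProcess 2 μ ∧
    μ.real {x | x 0 = true} = 7 / 20 := by
  obtain ⟨μ, hμp, hμ⟩ := exists_proc
  refine ⟨μ, ⟨hμp, ?_, ?_, ?_⟩, ?_⟩
  · symm
    refine ext_ES μ _ (fun S => ?_)
    have hmeas : Measurable (fun (x : ℤ → Bool) (i : ℤ) => x (i + 1)) :=
      measurable_pi_lambda _ (fun i => measurable_pi_apply (i + 1))
    rw [Measure.map_apply hmeas (measurable_ES S), shift_preimage, hμ, hμ, rho_shift]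
  · rw [ae_all_iff]
    intro i
    rw [ae_iff]
    have e : {x : ℤ → Bool | ¬ ¬ (x i = true ∧ x (i + 1) = true)} = ES {i, i + 1} := by
      ext x
      simp [ES]
    rw [e, hμ, rho_pair, ENNReal.ofReal_zero]
  · intro A B hAB
    rw [IndepFun_iff_Indep]
    have hA : Measurable (fun (x : ℤ → Bool) (a : A) => x a) :=
      measurable_pi_lambda _ (fun i => measurable_pi_apply _)
    have hB : Measurable (fun (x : ℤ → Bool) (b : B) => x b) :=
      measurable_pi_lambda _ (fun i => measurable_pi_apply _)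
    refine IndepSets.indep hA.comap_le hB.comap_le
      (p1 := Set.preimage (fun (x : ℤ → Bool) (a : A) => x a) '' (Set.range ES))
      (p2 := Set.preimage (fun (x : ℤ → Bool) (b : B) => x b) '' (Set.range ES)) ?_ ?_ ?_ ?_ ?_
    · rintro _ ⟨_, ⟨S, rfl⟩, rfl⟩ _ ⟨_, ⟨T, rfl⟩, rfl⟩ _
      classical
      exact ⟨ES S ∩ ES T, ⟨S ∪ T, (ES_inter S T).symm⟩, Set.preimage_inter⟩
    · rintro _ ⟨_, ⟨S, rfl⟩, rfl⟩ _ ⟨_, ⟨T, rfl⟩, rfl⟩ _
      classical
      exact ⟨ES S ∩ ES T, ⟨S ∪ T, (ES_inter S T).symm⟩, Set.preimage_inter⟩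
    · rw [← MeasurableSpace.comap_generateFrom, ← generate_ES]
    · rw [← MeasurableSpace.comap_generateFrom, ← generate_ES]
    · rw [IndepSets_iff]
      rintro _ _ ⟨_, ⟨S, rfl⟩, rfl⟩ ⟨_, ⟨T, rfl⟩, rfl⟩
      rw [dom_preimage, dom_preimage, ES_inter, hμ, hμ, hμ, rho_union,
        ENNReal.ofReal_mul (rho_nonneg _)]
      intro a ha b hb
      rw [Finset.mem_map] at ha hb
      obtain ⟨a, _, rfl⟩ := ha
      obtain ⟨b, _, rfl⟩ := hb
      exact hAB _ a.2 _ b.2
  · have e : {x : ℤ → Bool | x 0 = true} = ES {0} := by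
      ext x; simp [ES]
    rw [e, measureReal_def, hμ, rho_single, ENNReal.toReal_ofReal (by norm_num)]

lemma IsHardCoreProcess.mono {k l : ℕ} (h : k ≤ l) {μ : Measure (ℤ → Bool)}
    (hμ : IsHardCoreProcess k μ) : IsHardCoreProcess l μ where
  prob := hμ.prob
  stationary := hμ.stationary
  hardCore := hμ.hardCore
  dependent := fun A B hAB => hμ.dependent A B (fun a ha b hb => by
    have := hAB a ha b hb
    have h' : (k : ℤ) ≤ l := by exact_mod_cast h
    linarith)

lemma le_maxDensity {k : ℕ} {μ : Measure (ℤ → Bool)} (hμ : IsHardCoreProcess k μ) :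
    μ.real {x | x 0 = true} ≤ maxDensity k := by
  refine le_csSup ⟨1, ?_⟩ ⟨μ, hμ, rfl⟩
  rintro _ ⟨ν, hν, rfl⟩
  have := hν.prob
  exact measureReal_le_one

end Pool.Agent.KDep
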